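import Pool.Agent.Helper20.Sparse.GenTo

/-!
# Bounded arithmetical conditions with named variables
-/

set_option autoImplicit false

namespace Pool.Agent.Helper40.QD

open FirstOrder FirstOrder.Language Pool.Agent.Helper20.Spectra

/-- bounded arithmetical conditions whose variables are named by `α` -/
def RX {κ : Type} (b : κ → ℕ) (α : Type) (P : SOA b → (α → ℕ) → Prop) : Prop :=
  ∀ (l : ℕ) (u : α → (Fin l → ℕ) → ℕ), (∀ i, IsPoly l (u i)) →
    RudX b l (fun X v => P X (fun i => u i v))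

namespace RX

variable {κ : Type} {b : κ → ℕ} {α β : Type}

lemma congr {P Q : SOA b → (α → ℕ) → Prop} (h : RX b α P) (hPQ : ∀ X v, Q X v ↔ P X v) :
    RX b α Q := by
  have : P = Q := by funext X v; exact propext (hPQ X v).symm
  exact this ▸ h

lemma const (p : Prop) : RX b α (fun _ _ => p) := fun _ _ _ => RudX.const p

lemma eq (i j : α) : RX b α (fun _ v => v i = v j) := fun _ _ hu => RudX.eq (hu i) (hu j)

lemma lt (i j : α) : RX b α (fun _ v => v i < v j) := fun _ _ hu => RudX.lt (hu i) (hu j)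

lemma powLe (i j : α) (c : ℕ) : RX b α (fun _ v => v i ^ c ≤ v j) :=
  fun _ _ hu => RudX.le ((hu i).pow c) (hu j)

lemma so (s : κ) (g : Fin (b s) → α) : RX b α (fun X v => X s (fun j => v (g j))) :=
  fun _ _ hu => RudX.so' s (fun j => hu (g j))

lemma not {P : SOA b → (α → ℕ) → Prop} (h : RX b α P) : RX b α (fun X v => ¬ P X v) :=
  fun l u hu => (h l u hu).not'

lemma and {P Q : SOA b → (α → ℕ) → Prop} (h : RX b α P) (h' : RX b α Q) :
    RX b α (fun X v => P X v ∧ Q X v) := fun l u hu => (h l u hu).and' (h' l u hu)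

lemma or {P Q : SOA b → (α → ℕ) → Prop} (h : RX b α P) (h' : RX b α Q) :
    RX b α (fun X v => P X v ∨ Q X v) := fun l u hu => (h l u hu).or (h' l u hu)

lemma imp {P Q : SOA b → (α → ℕ) → Prop} (h : RX b α P) (h' : RX b α Q) :
    RX b α (fun X v => P X v → Q X v) := fun l u hu => (h l u hu).imp (h' l u hu)

lemma iff {P Q : SOA b → (α → ℕ) → Prop} (h : RX b α P) (h' : RX b α Q) :
    RX b α (fun X v => (P X v ↔ Q X v)) := fun l u hu => (h l u hu).iff (h' l u hu)

lemma all_fin {γ : Type} [Finite γ] {P : γ → SOA b → (α → ℕ) → Prop}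
    (h : ∀ c, RX b α (P c)) : RX b α (fun X v => ∀ c, P c X v) :=
  fun l u hu => RudX.all_fin (fun c => h c l u hu)

lemma ex_fin {γ : Type} [Finite γ] {P : γ → SOA b → (α → ℕ) → Prop}
    (h : ∀ c, RX b α (P c)) : RX b α (fun X v => ∃ c, P c X v) :=
  fun l u hu => RudX.ex_fin (fun c => h c l u hu)

/-- renaming of the variables -/
lemma sub {P : SOA b → (β → ℕ) → Prop} (h : RX b β P) (g : β → α) :
    RX b α (fun X v => P X (fun j => v (g j))) :=
  fun l u hu => h l (fun j => u (g j)) (fun j => hu (g j))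

lemma exLe (i : α) {P : SOA b → (α → ℕ) → ℕ → Prop}
    (h : RX b (α ⊕ Unit) (fun X v => P X (fun j => v (Sum.inl j)) (v (Sum.inr ())))) :
    RX b α (fun X v => ∃ y, y ≤ v i ∧ P X v y) := by
  intro l u hu
  refine RudX.ex (hu i) (P := fun X v y => P X (fun j => u j v) y) ?_
  exact h (l + 1) (Sum.elim (fun j v => u j (Fin.tail v)) (fun _ v => v 0)) (by
    rintro (j | j)
    · exact (hu j).tail
    · exact IsPoly.var 0)

lemma allLe (i : α) {P : SOA b → (α → ℕ) → ℕ → Prop}
    (h : RX b (α ⊕ Unit) (fun X v => P X (fun j => v (Sum.inl j)) (v (Sum.inr ())))) :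
    RX b α (fun X v => ∀ y, y ≤ v i → P X v y) :=
  (exLe i (P := fun X v y => ¬ P X v y) h.not).not.congr (fun X v => by
    simp only [not_exists, not_and, not_not])

lemma exLt (i : α) {P : SOA b → (α → ℕ) → ℕ → Prop}
    (h : RX b (α ⊕ Unit) (fun X v => P X (fun j => v (Sum.inl j)) (v (Sum.inr ())))) :
    RX b α (fun X v => ∃ y, y < v i ∧ P X v y) :=
  (exLe i (P := fun X v y => y < v i ∧ P X v y)
    ((lt (Sum.inr ()) (Sum.inl i)).and h)).congr (fun X v => by
    constructor
    · rintro ⟨y, h1, h2⟩; exact ⟨y, h1.le, h1, h2⟩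
    · rintro ⟨y, _, h1, h2⟩; exact ⟨y, h1, h2⟩)

lemma exTup0 {m : ℕ} : ∀ {α : Type} (i : α) {P : SOA b → (α → ℕ) → (Fin m → ℕ) → Prop}
    (_ : RX b (α ⊕ Fin m) (fun X v => P X (fun j => v (Sum.inl j)) (fun j => v (Sum.inr j)))),
    RX b α (fun X v => ∃ z : Fin m → ℕ, (∀ j, z j < v i) ∧ P X v z) := by
  induction m with
  | zero =>
    intro α i P h
    refine (h.sub (fun j => match j with
      | Sum.inl j => j
      | Sum.inr j => (j.elim0 : α))).congr (fun X v => ?_)
    constructor
    · rintro ⟨z, _, hz⟩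
      have e : z = fun j => v ((fun j => match j with
        | Sum.inl j => j
        | Sum.inr j => (j.elim0 : α)) (Sum.inr j)) := funext (fun j => j.elim0)
      rw [e] at hz
      exact hz
    · intro h1
      exact ⟨_, fun j => j.elim0, h1⟩
  | succ m ih =>
    intro α i P h
    have h1 : RX b (α ⊕ Unit) (fun X v => ∃ z : Fin m → ℕ, (∀ j, z j < v (Sum.inl i)) ∧
        P X (fun j => v (Sum.inl j)) (Fin.cons (v (Sum.inr ())) z)) := by
      refine ih (Sum.inl i : α ⊕ Unit)
        (P := fun X v z => P X (fun j => v (Sum.inl j)) (Fin.cons (v (Sum.inr ())) z)) ?_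
      refine (h.sub (α := (α ⊕ Unit) ⊕ Fin m) (fun j => match j with
        | Sum.inl j => Sum.inl (Sum.inl j)
        | Sum.inr j => (Fin.cons (Sum.inl (Sum.inr ())) (fun j => Sum.inr j) :
            Fin (m + 1) → (α ⊕ Unit) ⊕ Fin m) j)).congr
        (fun X v => ?_)
      refine Iff.of_eq (congrArg (P X _) ?_)
      funext j
      refine Fin.cases ?_ (fun j => ?_) j
      · rfl
      · rfl
    refine (exLt i (P := fun X v y => ∃ z : Fin m → ℕ, (∀ j, z j < v i) ∧
      P X v (Fin.cons y z)) h1).congr (fun X v => ?_)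
    constructor
    · rintro ⟨z, hz, h2⟩
      refine ⟨z 0, hz 0, fun j => z j.succ, fun j => hz _, ?_⟩
      have e : (Fin.cons (z 0) (fun j => z j.succ) : Fin (m + 1) → ℕ) = z :=
        Fin.cons_self_tail z
      rw [e]
      exact h2
    · rintro ⟨y, hy, z, hz, h2⟩
      refine ⟨Fin.cons y z, fun j => ?_, h2⟩
      refine Fin.cases ?_ (fun j => ?_) j
      · exact hy
      · exact hz j

lemma exTup (i : α) {m : ℕ} {P : SOA b → (α → ℕ) → (Fin m → ℕ) → Prop}
    (h : RX b (α ⊕ Fin m) (fun X v => P X (fun j => v (Sum.inl j)) (fun j => v (Sum.inr j)))) :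
    RX b α (fun X v => ∃ z : Fin m → ℕ, (∀ j, z j < v i) ∧ P X v z) := exTup0 i h

lemma allTup (i : α) {m : ℕ} {P : SOA b → (α → ℕ) → (Fin m → ℕ) → Prop}
    (h : RX b (α ⊕ Fin m) (fun X v => P X (fun j => v (Sum.inl j)) (fun j => v (Sum.inr j)))) :
    RX b α (fun X v => ∀ z : Fin m → ℕ, (∀ j, z j < v i) → P X v z) :=
  (exTup i (P := fun X v z => ¬ P X v z) h.not).not.congr (fun X v => by
    simp only [not_exists, not_and, not_not])

/-- second-order substitution -/
lemma substSO' {ι : Type} {a : ι → ℕ} {P : SOA a → (β → ℕ) → Prop} (h : RX a β P)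
    {B : ∀ i : ι, SOA b → (α → ℕ) → (Fin (a i) → ℕ) → Prop}
    (hB : ∀ i, RX b (α ⊕ Fin (a i)) (fun X v => B i X (fun j => v (Sum.inl j))
      (fun j => v (Sum.inr j)))) (g : β → α) [Finite β] :
    RX b α (fun X v => P (fun i => B i X v) (fun j => v (g j))) := by
  intro l u hu
  obtain ⟨k, ⟨e⟩⟩ := Finite.exists_equiv_fin β
  have h1 := h k (fun j v => v (e j)) (fun j => IsPoly.var (e j))
  have h2 := substSO (b := b) (m := l) (B := fun i X v w => B i X (fun j => u j v) w) h1
    (by
      intro i l' u' w hu' hw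
      exact hB i l' (Sum.elim (fun j v => u j (fun j' => u' j' v)) w) (by
        rintro (j | j)
        · exact (hu j).sub hu'
        · exact hw j)) l (fun i v => v i) (fun i => IsPoly.var i)
    (fun i v => u (g (e.symm i)) v) (fun i => hu _)
  refine h2.congr (fun X v => ?_)
  refine Iff.of_eq (congrArg (P _) ?_)
  funext j
  simp

end RX

end Pool.Agent.Helper40.QD
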