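import Pool.Agent.Helper40.QD.RX
import Pool.Agent.Helper58.QD.Stub

/-!
# The set `TT χ` is a spectrum
-/

set_option autoImplicit false

namespace Pool.Agent.Helper40.QD

open FirstOrder FirstOrder.Language Pool.Agent.Helper20.Spectra Pool.Agent.Helper58.QD

variable {S : Type} {ar : S → ℕ}

/-- the interpretation on `{0, ..., n - 1}` given by second-order variables -/
def toI (n : ℕ) (X : SOA ar) : Interp S ar (Fin n) := fun s t => X s (fun i => (t i : ℕ))

/-- the coding of the symbols -/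
def toSym (X : SOA ar) : SOA (asym (RelLang S ar)) := fun i =>
  match i with
  | Sum.inl _ => fun _ => False
  | Sum.inr r => fun w => X r.2.1 (fun j => w (Fin.cast r.2.2 j))

/-- satisfaction of a sentence is a bounded condition -/
lemma exists_mod (χ : (RelLang S ar).Sentence) : ∃ F : SOA ar → (Unit → ℕ) → Prop,
    RX ar Unit F ∧ ∀ (n : ℕ) (X : SOA ar), F X (fun _ => n) ↔ IsMod χ (toI n X) := by
  obtain ⟨F, hF, hF'⟩ := form_X (L := RelLang S ar) χ
  refine ⟨fun X v => F (toSym X) (fun _ => v ()) Fin.elim0, ?_, fun n X => ?_⟩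
  · have h1 : RX (asym (RelLang S ar)) Unit (fun X v => F X (fun _ => v ()) Fin.elim0) := by
      intro l u hu
      refine (hF l (fun _ => u ()) Fin.elim0 (fun _ => hu ()) (fun i => i.elim0)).congr
        (fun X v => ?_)
      refine Iff.of_eq (congrArg (F X _) ?_)
      funext i
      exact i.elim0
    refine (h1.substSO' (b := ar) (α := Unit) (B := fun i X _ w => toSym X i w) ?_
      (fun j => j)).congr (fun X v => Iff.rfl)
    rintro (f | r)
    · exact RX.const False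
    · exact RX.so (b := ar) r.2.1 (fun j => Sum.inr (Fin.cast r.2.2 j))
  · have h2 : CodesX n (toSym X) (mkS (toI n X)) := by
      refine ⟨fun f => Empty.elim f.2, fun r x => ?_⟩
      exact Iff.rfl
    have h3 := hF' n (toSym X) (mkS (toI n X)) h2 Fin.elim0
    have e1 : (fun i => ((Fin.elim0 : Fin 0 → Fin n) i : ℕ)) = (Fin.elim0 : Fin 0 → ℕ) :=
      funext (fun i => i.elim0)
    rw [e1] at h3
    refine h3.trans ?_
    unfold IsMod Sentence.Realize Formula.Realize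
    have e2 : (Empty.elim : Empty → Fin n) = default := funext (fun x => x.elim)
    have e3 : (Fin.elim0 : Fin 0 → Fin n) = default := funext (fun x => x.elim0)
    rw [e2, e3]

/-- the condition `XJ` in terms of numbers -/
def XN {k : ℕ} (n : ℕ) (J : Finset (Fin k)) (R1 R2 : (Fin k → ℕ) → Prop) (a1 a2 : Fin k → ℕ)
    (p x : ℕ) : Prop :=
  ∀ t : Fin k → ℕ, (∀ i, t i < n) → ∀ t' : Fin k → ℕ, (∀ i, t' i < n) →
    (∀ i, (t i = x ∧ t' i = p) ∨ (t i ≠ x ∧ t i = p ∧ t' i = x) ∨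
      (t i ≠ x ∧ t i ≠ p ∧ t' i = t i)) →
    ((R1 (fun i => if i ∈ J then a1 i else t' i) ↔ R2 (fun i => if i ∈ J then a2 i else t' i)) ↔
      (R1 (fun i => if i ∈ J then a1 i else t i) ↔ R2 (fun i => if i ∈ J then a2 i else t i)))

lemma xN_iff {k n : ℕ} (J : Finset (Fin k)) (R1 R2 : (Fin k → ℕ) → Prop) (a1 a2 : Fin k → Fin n)
    (p x : Fin n) : XN n J R1 R2 (fun i => (a1 i : ℕ)) (fun i => (a2 i : ℕ)) p x ↔
      XJ (M := Fin n) J (fun t => R1 (fun i => (t i : ℕ))) (fun t => R2 (fun i => (t i : ℕ)))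
        a1 a2 p x := by
  have ho : ∀ (a : Fin k → Fin n) (t : Fin k → Fin n), (fun i => ((ov J a t i : Fin n) : ℕ)) =
      fun i => if i ∈ J then (a i : ℕ) else (t i : ℕ) := by
    intro a t
    funext i
    unfold ov
    split <;> rfl
  constructor
  · intro h t
    have h1 := h (fun i => (t i : ℕ)) (fun i => (t i).isLt)
      (fun i => ((Equiv.swap x p (t i) : Fin n) : ℕ)) (fun i => Fin.isLt _) (fun i => by
        by_cases h1 : t i = x
        · left
          rw [h1, Equiv.swap_apply_left]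
          exact ⟨rfl, rfl⟩
        · by_cases h2 : t i = p
          · right; left
            refine ⟨fun h3 => h1 (Fin.ext h3), by rw [h2], ?_⟩
            rw [h2, Equiv.swap_apply_right]
          · right; right
            refine ⟨fun h3 => h1 (Fin.ext h3), fun h3 => h2 (Fin.ext h3), ?_⟩
            rw [Equiv.swap_apply_of_ne_of_ne h1 h2])
    simp only [ho]
    exact h1
  · intro h t ht t' ht' hs
    have h1 := h (fun i => ⟨t i, ht i⟩)
    have h2 : (Equiv.swap x p ∘ fun i => (⟨t i, ht i⟩ : Fin n)) =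
        fun i => (⟨t' i, ht' i⟩ : Fin n) := by
      funext i
      show Equiv.swap x p ⟨t i, ht i⟩ = ⟨t' i, ht' i⟩
      rcases hs i with ⟨h3, h4⟩ | ⟨h3, h4, h5⟩ | ⟨h3, h4, h5⟩
      · have e1 : (⟨t i, ht i⟩ : Fin n) = x := Fin.ext h3
        rw [e1, Equiv.swap_apply_left]
        exact (Fin.ext h4).symm
      · have e1 : (⟨t i, ht i⟩ : Fin n) = p := Fin.ext h4
        rw [e1, Equiv.swap_apply_right]
        exact (Fin.ext h5).symm
      · rw [Equiv.swap_apply_of_ne_of_ne (fun h6 => h3 (congrArg Fin.val h6))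
          (fun h6 => h4 (congrArg Fin.val h6))]
        exact (Fin.ext h5).symm
    rw [h2] at h1
    simp only [ho] at h1
    exact h1

/-- arities of the second-order variables: four families with one more argument -/
def ar4 (ar : S → ℕ) : Fin 4 × S → ℕ := fun c => ar c.2 + 1

/-- the slices -/
def slice (X : SOA (ar4 ar)) (i : Fin 4) (l : ℕ) : SOA ar :=
  fun s w => X (i, s) (Fin.cons l w : Fin (ar s + 1) → ℕ)

lemma slice_RX (i : Fin 4) (s : S) {α : Type} (l0 : α) (g : Fin (ar s) → α) :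
    RX (ar4 ar) α (fun X v => slice X i (v l0) s (fun j => v (g j))) := by
  refine (RX.so (b := ar4 ar) (i, s) (Fin.cons l0 g : Fin (ar s + 1) → α)).congr (fun X v => ?_)
  refine Iff.of_eq (congrArg (X (i, s)) ?_)
  funext j
  change Fin (ar s + 1) at j
  refine Fin.cases ?_ (fun j => ?_) j <;> rfl

lemma xN_RX (s : S) (J : Finset (Fin (ar s))) (i1 i2 : Fin 4) {α : Type} (n0 l0 p0 x0 : α)
    (A1 A2 : Fin (ar s) → α) :
    RX (ar4 ar) α (fun X v => XN (v n0) J (slice X i1 (v l0) s) (slice X i2 (v l0) s)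
      (fun j => v (A1 j)) (fun j => v (A2 j)) (v p0) (v x0)) := by
  refine RX.allTup n0 (RX.allTup (Sum.inl n0) (RX.imp (RX.all_fin (fun i => ?_)) ?_))
  · exact RX.or (RX.and (RX.eq (Sum.inl (Sum.inr i)) (Sum.inl (Sum.inl x0)))
        (RX.eq (Sum.inr i) (Sum.inl (Sum.inl p0))))
      (RX.or (RX.and (RX.not (RX.eq (Sum.inl (Sum.inr i)) (Sum.inl (Sum.inl x0))))
        (RX.and (RX.eq (Sum.inl (Sum.inr i)) (Sum.inl (Sum.inl p0)))
          (RX.eq (Sum.inr i) (Sum.inl (Sum.inl x0)))))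
      (RX.and (RX.not (RX.eq (Sum.inl (Sum.inr i)) (Sum.inl (Sum.inl x0))))
        (RX.and (RX.not (RX.eq (Sum.inl (Sum.inr i)) (Sum.inl (Sum.inl p0))))
          (RX.eq (Sum.inr i) (Sum.inl (Sum.inr i))))))
  · have h : ∀ (i : Fin 4) (A : Fin (ar s) → α)
        (B : Fin (ar s) → (α ⊕ Fin (ar s)) ⊕ Fin (ar s)),
        RX (ar4 ar) ((α ⊕ Fin (ar s)) ⊕ Fin (ar s)) (fun X v =>
          slice X i (v (Sum.inl (Sum.inl l0))) s
            (fun j => if j ∈ J then v (Sum.inl (Sum.inl (A j))) else v (B j))) := by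
      intro i A B
      refine (slice_RX i s (Sum.inl (Sum.inl l0))
        (fun j => if j ∈ J then Sum.inl (Sum.inl (A j)) else B j)).congr (fun X v => ?_)
      refine Iff.of_eq (congrArg (slice X i _ s) ?_)
      funext j
      split <;> rfl
    exact RX.iff (RX.iff (h i1 A1 (fun j => Sum.inr j)) (h i2 A2 (fun j => Sum.inr j)))
      (RX.iff (h i1 A1 (fun j => Sum.inl (Sum.inr j))) (h i2 A2 (fun j => Sum.inl (Sum.inr j))))

lemma mod_RX {F : SOA ar → (Unit → ℕ) → Prop} (hF : RX ar Unit F) (i : Fin 4) {α : Type}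
    (n0 l0 : α) :
    RX (ar4 ar) α (fun X v => F (slice X i (v l0)) (fun _ => v n0)) := by
  refine (hF.substSO' (b := ar4 ar) (α := α) (B := fun s X v w => slice X i (v l0) s w) ?_
    (fun _ => n0)).congr (fun X v => Iff.rfl)
  intro s
  exact slice_RX i s (Sum.inl l0) (fun j => Sum.inr j)

lemma le_sr_iff {n l : ℕ} : l ≤ sr n ↔ l ^ 5 ≤ n := by
  unfold sr
  constructor
  · intro h
    have h1 := Nat.findGreatest_spec (P := fun b => b ^ 5 ≤ n) (Nat.zero_le n) (by simp)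
    exact (Nat.pow_le_pow_left h 5).trans h1
  · intro h
    exact Nat.le_findGreatest ((Nat.le_self_pow (by omega) l).trans h) h

/-- G: `TT χ` is a spectrum. -/
theorem stmtSpecT : StmtSpecT := by
  intro S _ ar χ
  obtain ⟨F, hF, hF'⟩ := exists_mod χ
  have hP : RX (ar4 ar) Unit (fun X v => ∀ l, l ≤ v () → (l ^ 5 ≤ v () →
      (∀ i : Fin 4, F (slice X i l) (fun _ => v ())) ∧
      ∃ (s : S) (J : Finset (Fin (ar s))) (s' : S) (J' : Finset (Fin (ar s'))),
      ∃ a1 : Fin (ar s) → ℕ, (∀ j, a1 j < v ()) ∧ ∃ a2 : Fin (ar s) → ℕ, (∀ j, a2 j < v ()) ∧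
      ∃ b1 : Fin (ar s') → ℕ, (∀ j, b1 j < v ()) ∧ ∃ b2 : Fin (ar s') → ℕ, (∀ j, b2 j < v ()) ∧
      ∃ p, p < v () ∧ ∃ q, q < v () ∧ ¬ ∃ x, x < v () ∧ ¬ (x < l ↔
        XN (v ()) J (slice X 0 l s) (slice X 1 l s) a1 a2 p x ∧
        ¬ XN (v ()) J' (slice X 2 l s') (slice X 3 l s') b1 b2 q x))) := by
    refine RX.allLe () (RX.imp (RX.powLe (Sum.inr ()) (Sum.inl ()) 5) (RX.and
      (RX.all_fin (fun i => mod_RX hF i (Sum.inl ()) (Sum.inr ()))) ?_))
    refine RX.ex_fin (fun s => RX.ex_fin (fun J => RX.ex_fin (fun s' => RX.ex_fin (fun J' => ?_))))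
    refine RX.exTup (Sum.inl ()) (RX.exTup (Sum.inl (Sum.inl ())) (RX.exTup
      (Sum.inl (Sum.inl (Sum.inl ()))) (RX.exTup (Sum.inl (Sum.inl (Sum.inl (Sum.inl ()))))
      (RX.exLt (Sum.inl (Sum.inl (Sum.inl (Sum.inl (Sum.inl ())))))
      (RX.exLt (Sum.inl (Sum.inl (Sum.inl (Sum.inl (Sum.inl (Sum.inl ()))))))
      (RX.not (RX.exLt (Sum.inl (Sum.inl (Sum.inl (Sum.inl (Sum.inl (Sum.inl (Sum.inl ())))))))
      (RX.not (RX.iff ?_ (RX.and ?_ (RX.not ?_)))))))))))
    · exact RX.lt (Sum.inr ()) (Sum.inl (Sum.inl (Sum.inl (Sum.inl (Sum.inl (Sum.inl (Sum.inl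
        (Sum.inr ()))))))))
    · exact xN_RX s J 0 1 (Sum.inl (Sum.inl (Sum.inl (Sum.inl (Sum.inl (Sum.inl (Sum.inl
        (Sum.inl ())))))))) (Sum.inl (Sum.inl (Sum.inl (Sum.inl (Sum.inl (Sum.inl (Sum.inl
        (Sum.inr ())))))))) (Sum.inl (Sum.inl (Sum.inr ()))) (Sum.inr ())
        (fun j => Sum.inl (Sum.inl (Sum.inl (Sum.inl (Sum.inl (Sum.inl (Sum.inr j)))))))
        (fun j => Sum.inl (Sum.inl (Sum.inl (Sum.inl (Sum.inl (Sum.inr j))))))
    · exact xN_RX s' J' 2 3 (Sum.inl (Sum.inl (Sum.inl (Sum.inl (Sum.inl (Sum.inl (Sum.inl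
        (Sum.inl ())))))))) (Sum.inl (Sum.inl (Sum.inl (Sum.inl (Sum.inl (Sum.inl (Sum.inl
        (Sum.inr ())))))))) (Sum.inl (Sum.inr ())) (Sum.inr ())
        (fun j => Sum.inl (Sum.inl (Sum.inl (Sum.inl (Sum.inr j)))))
        (fun j => Sum.inl (Sum.inl (Sum.inl (Sum.inr j))))
  have h1 := hP 1 (fun _ v => v 0) (fun _ => IsPoly.var 0)
  have h2 := RudX.isSpectrum h1
  have h3 : TT χ = {m : ℕ | 1 ≤ m ∧ ∃ X : SOA (ar4 ar), ∀ l, l ≤ m → (l ^ 5 ≤ m →
      (∀ i : Fin 4, F (slice X i l) (fun _ => m)) ∧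
      ∃ (s : S) (J : Finset (Fin (ar s))) (s' : S) (J' : Finset (Fin (ar s'))),
      ∃ a1 : Fin (ar s) → ℕ, (∀ j, a1 j < m) ∧ ∃ a2 : Fin (ar s) → ℕ, (∀ j, a2 j < m) ∧
      ∃ b1 : Fin (ar s') → ℕ, (∀ j, b1 j < m) ∧ ∃ b2 : Fin (ar s') → ℕ, (∀ j, b2 j < m) ∧
      ∃ p, p < m ∧ ∃ q, q < m ∧ ¬ ∃ x, x < m ∧ ¬ (x < l ↔
        XN m J (slice X 0 l s) (slice X 1 l s) a1 a2 p x ∧
        ¬ XN m J' (slice X 2 l s') (slice X 3 l s') b1 b2 q x))} := by
    ext n
    refine and_congr Iff.rfl ?_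
    constructor
    · intro h
      have h4 : ∀ l : Fin (sr n + 1), ∃ R : Fin 4 → Interp S ar (Fin n), (∀ i, IsMod χ (R i)) ∧
          ∃ (s : S) (J : Finset (Fin (ar s))) (s' : S) (J' : Finset (Fin (ar s')))
          (a1 a2 : Fin (ar s) → Fin n) (b1 b2 : Fin (ar s') → Fin n) (p q : Fin n),
          ∀ x : Fin n, ((x : ℕ) < l ↔ XJ J (R 0 s) (R 1 s) a1 a2 p x ∧
            ¬ XJ J' (R 2 s') (R 3 s') b1 b2 q x) := by
        intro l
        obtain ⟨X, Y, ⟨s, J, R1, R2, a1, a2, p, hR1, hR2, hX⟩,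
          ⟨s', J', R3, R4, b1, b2, q, hR3, hR4, hY⟩, hZ⟩ := h l (by have := l.isLt; omega)
        refine ⟨![R1, R2, R3, R4], ?_, s, J, s', J', a1, a2, b1, b2, p, q, ?_⟩
        · intro i
          fin_cases i
          · exact hR1
          · exact hR2
          · exact hR3
          · exact hR4
        · intro x
          have h5 := hZ x
          rw [hX, hY] at h5
          have h6 : x ∈ iniS n l ↔ (x : ℕ) < l := by simp [iniS]
          rw [h6] at h5
          exact h5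
      choose R hR s J s' J' a1 a2 b1 b2 p q hx using h4
      classical
      let X : SOA (ar4 ar) := fun c w =>
        ∃ (h1 : (show Fin (ar c.2 + 1) → ℕ from w) 0 < sr n + 1)
          (h2 : ∀ j : Fin (ar c.2), (show Fin (ar c.2 + 1) → ℕ from w) j.succ < n),
          R ⟨(show Fin (ar c.2 + 1) → ℕ from w) 0, h1⟩ c.1 c.2
            (fun j => ⟨(show Fin (ar c.2 + 1) → ℕ from w) j.succ, h2 j⟩)
      have hsl : ∀ (i : Fin 4) (l : Fin (sr n + 1)) (t : S) (w : Fin (ar t) → Fin n),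
          slice X i l t (fun j => (w j : ℕ)) ↔ R l i t w := by
        intro i l t w
        constructor
        · rintro ⟨h1, h2, h3⟩
          exact h3
        · intro h3
          exact ⟨l.isLt, fun j => (w j).isLt, h3⟩
      have hto : ∀ (i : Fin 4) (l : Fin (sr n + 1)), toI n (slice X i l) = R l i := by
        intro i l
        funext t w
        exact propext (hsl i l t w)
      refine ⟨X, fun l _ hl => ?_⟩
      obtain ⟨l', hl'⟩ : ∃ l' : Fin (sr n + 1), (l' : ℕ) = l :=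
        ⟨⟨l, Nat.lt_succ_of_le (le_sr_iff.2 hl)⟩, rfl⟩
      rw [← hl']
      refine ⟨fun i => ?_, s l', J l', s' l', J' l', fun j => (a1 l' j : ℕ), fun j => Fin.is_lt _,
        fun j => (a2 l' j : ℕ), fun j => Fin.is_lt _, fun j => (b1 l' j : ℕ), fun j => Fin.is_lt _,
        fun j => (b2 l' j : ℕ), fun j => Fin.is_lt _, (p l' : ℕ), Fin.is_lt _, (q l' : ℕ),
        Fin.is_lt _, ?_⟩
      · rw [hF', hto]
        exact hR l' i
      · rintro ⟨x, hxn, hx'⟩
        apply hx'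
        have h5 := hx l' ⟨x, hxn⟩
        have h6 := xN_iff (J l') (slice X 0 l' (s l')) (slice X 1 l' (s l')) (a1 l') (a2 l')
          (p l') ⟨x, hxn⟩
        have h7 := xN_iff (J' l') (slice X 2 l' (s' l')) (slice X 3 l' (s' l')) (b1 l') (b2 l')
          (q l') ⟨x, hxn⟩
        have e0 : (fun t : Fin (ar (s l')) → Fin n => slice X 0 l' (s l') (fun i => (t i : ℕ))) =
            R l' 0 (s l') := by funext t; exact propext (hsl 0 l' _ t)
        have e1 : (fun t : Fin (ar (s l')) → Fin n => slice X 1 l' (s l') (fun i => (t i : ℕ))) =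
            R l' 1 (s l') := by funext t; exact propext (hsl 1 l' _ t)
        have e2 : (fun t : Fin (ar (s' l')) → Fin n => slice X 2 l' (s' l') (fun i => (t i : ℕ))) =
            R l' 2 (s' l') := by funext t; exact propext (hsl 2 l' _ t)
        have e3 : (fun t : Fin (ar (s' l')) → Fin n => slice X 3 l' (s' l') (fun i => (t i : ℕ))) =
            R l' 3 (s' l') := by funext t; exact propext (hsl 3 l' _ t)
        rw [e0, e1] at h6
        rw [e2, e3] at h7
        rw [h6, h7]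
        exact h5
    · rintro ⟨X, hX⟩ l hl
      have hl5 := le_sr_iff.1 hl
      obtain ⟨hM, s, J, s', J', a1, ha1, a2, ha2, b1, hb1, b2, hb2, p, hp, q, hq, hx⟩ :=
        hX l ((Nat.le_self_pow (by omega) l).trans hl5) hl5
      have hM' : ∀ i, IsMod χ (toI n (slice X i l)) := fun i => (hF' n _).1 (hM i)
      classical
      refine ⟨Finset.univ.filter (fun x : Fin n => XJ J (toI n (slice X 0 l) s)
        (toI n (slice X 1 l) s) (fun j => ⟨a1 j, ha1 j⟩) (fun j => ⟨a2 j, ha2 j⟩) ⟨p, hp⟩ x),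
        Finset.univ.filter (fun x : Fin n => XJ J' (toI n (slice X 2 l) s')
        (toI n (slice X 3 l) s') (fun j => ⟨b1 j, hb1 j⟩) (fun j => ⟨b2 j, hb2 j⟩) ⟨q, hq⟩ x),
        ⟨s, J, _, _, fun j => ⟨a1 j, ha1 j⟩, fun j => ⟨a2 j, ha2 j⟩, ⟨p, hp⟩, hM' 0, hM' 1,
          fun x => by simp⟩,
        ⟨s', J', _, _, fun j => ⟨b1 j, hb1 j⟩, fun j => ⟨b2 j, hb2 j⟩, ⟨q, hq⟩, hM' 2, hM' 3,
          fun x => by simp⟩, fun x => ?_⟩
      have h5 : ((x : ℕ) < l ↔ XN n J (slice X 0 l s) (slice X 1 l s) a1 a2 p x ∧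
          ¬ XN n J' (slice X 2 l s') (slice X 3 l s') b1 b2 q x) := by
        by_contra h6
        exact hx ⟨x, x.isLt, h6⟩
      have h6 := xN_iff J (slice X 0 l s) (slice X 1 l s) (fun j => ⟨a1 j, ha1 j⟩)
        (fun j => ⟨a2 j, ha2 j⟩) ⟨p, hp⟩ x
      have h7 := xN_iff J' (slice X 2 l s') (slice X 3 l s') (fun j => ⟨b1 j, hb1 j⟩)
        (fun j => ⟨b2 j, hb2 j⟩) ⟨q, hq⟩ x
      rw [h6, h7] at h5
      have h8 : x ∈ iniS n l ↔ (x : ℕ) < l := by simp [iniS]
      rw [h8, h5]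
      simp only [Finset.mem_filter, Finset.mem_univ, true_and]
      exact Iff.rfl
  rw [h3]
  exact h2

end Pool.Agent.Helper40.QD
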