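import Pool.Agent.Helper40.QD.SpecT
import Pool.Agent.Helper38.QD.InvL

/-!
# The set `TTq χ q` is a spectrum
-/

set_option autoImplicit false

namespace Pool.Agent.Helper40.QD

open FirstOrder FirstOrder.Language Pool.Agent.Helper20.Spectra Pool.Agent.Helper58.QD
open Pool.Agent.Helper38.QD (TTq)

variable {S : Type} {ar : S → ℕ}

lemma RX.mulLe {κ : Type} {b : κ → ℕ} {α : Type} (q : ℕ) (i j : α) :
    RX b α (fun _ v => q * v i ≤ v j) :=
  fun _ _ hu => RudX.le (Pool.Agent.Helper20.Spectra.IsPoly.mul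
    (Pool.Agent.Helper20.Spectra.IsPoly.const q) (hu i)) (hu j)

/-- G, linear: `TTq χ q` is a spectrum. -/
theorem specTq [Finite S] (χ : (RelLang S ar).Sentence) {q₀ : ℕ} (hq₀ : 1 ≤ q₀) :
    IsSpectrum (TTq χ q₀) := by
  have hdiv : ∀ n l : ℕ, l ≤ n / q₀ ↔ q₀ * l ≤ n := fun n l => by
    rw [Nat.le_div_iff_mul_le (by omega), mul_comm]
  obtain ⟨F, hF, hF'⟩ := exists_mod χ
  have hP : RX (ar4 ar) Unit (fun X v => ∀ l, l ≤ v () → (q₀ * l ≤ v () →
      (∀ i : Fin 4, F (slice X i l) (fun _ => v ())) ∧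
      ∃ (s : S) (J : Finset (Fin (ar s))) (s' : S) (J' : Finset (Fin (ar s'))),
      ∃ a1 : Fin (ar s) → ℕ, (∀ j, a1 j < v ()) ∧ ∃ a2 : Fin (ar s) → ℕ, (∀ j, a2 j < v ()) ∧
      ∃ b1 : Fin (ar s') → ℕ, (∀ j, b1 j < v ()) ∧ ∃ b2 : Fin (ar s') → ℕ, (∀ j, b2 j < v ()) ∧
      ∃ p, p < v () ∧ ∃ q, q < v () ∧ ¬ ∃ x, x < v () ∧ ¬ (x < l ↔
        XN (v ()) J (slice X 0 l s) (slice X 1 l s) a1 a2 p x ∧
        ¬ XN (v ()) J' (slice X 2 l s') (slice X 3 l s') b1 b2 q x))) := by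
    refine RX.allLe () (RX.imp (RX.mulLe q₀ (Sum.inr ()) (Sum.inl ())) (RX.and
      (RX.all_fin (fun i => mod_RX hF i (Sum.inl ()) (Sum.inr ()))) ?_))
    refine RX.ex_fin (fun s => RX.ex_fin (fun J => RX.ex_fin (fun s' => RX.ex_fin (fun J' => ?_))))
    refine RX.exTup (Sum.inl ()) (RX.exTup (Sum.inl (Sum.inl ())) (RX.exTup
      (Sum.inl (Sum.inl (Sum.inl ()))) (RX.exTup (Sum.inl (Sum.inl (Sum.inl (Sum.inl ()))))
      (RX.exLt (Sum.inl (Sum.inl (Sum.inl (Sum.inl (Sum.inl ())))))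
      (RX.exLt (Sum.inl (Sum.inl (Sum.inl (Sum.inl (Sum.inl (Sum.inl ()))))))
      (RX.not (RX.exLt (Sum.inl (Sum.inl (Sum.inl (Sum.inl (Sum.inl (Sum.inl (Sum.inl ())))))))
      (RX.not (RX.iff ?_ (RX.and ?_ (RX.not ?_)))))))))))
    · exact RX.lt (Sum.inr ()) (Sum.inl (Sum.inl (Sum.inl (Sum.inl (Sum.inl (Sum.inl (Sum.inl
        (Sum.inr ()))))))))
    · exact xN_RX s J 0 1 (Sum.inl (Sum.inl (Sum.inl (Sum.inl (Sum.inl (Sum.inl (Sum.inl
        (Sum.inl ())))))))) (Sum.inl (Sum.inl (Sum.inl (Sum.inl (Sum.inl (Sum.inl (Sum.inl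
        (Sum.inr ())))))))) (Sum.inl (Sum.inl (Sum.inr ()))) (Sum.inr ())
        (fun j => Sum.inl (Sum.inl (Sum.inl (Sum.inl (Sum.inl (Sum.inl (Sum.inr j)))))))
        (fun j => Sum.inl (Sum.inl (Sum.inl (Sum.inl (Sum.inl (Sum.inr j))))))
    · exact xN_RX s' J' 2 3 (Sum.inl (Sum.inl (Sum.inl (Sum.inl (Sum.inl (Sum.inl (Sum.inl
        (Sum.inl ())))))))) (Sum.inl (Sum.inl (Sum.inl (Sum.inl (Sum.inl (Sum.inl (Sum.inl
        (Sum.inr ())))))))) (Sum.inl (Sum.inr ())) (Sum.inr ())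
        (fun j => Sum.inl (Sum.inl (Sum.inl (Sum.inl (Sum.inr j)))))
        (fun j => Sum.inl (Sum.inl (Sum.inl (Sum.inr j))))
  have h1 := hP 1 (fun _ v => v 0) (fun _ => IsPoly.var 0)
  have h2 := RudX.isSpectrum h1
  have h3 : TTq χ q₀ = {m : ℕ | 1 ≤ m ∧ ∃ X : SOA (ar4 ar), ∀ l, l ≤ m → (q₀ * l ≤ m →
      (∀ i : Fin 4, F (slice X i l) (fun _ => m)) ∧
      ∃ (s : S) (J : Finset (Fin (ar s))) (s' : S) (J' : Finset (Fin (ar s'))),
      ∃ a1 : Fin (ar s) → ℕ, (∀ j, a1 j < m) ∧ ∃ a2 : Fin (ar s) → ℕ, (∀ j, a2 j < m) ∧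
      ∃ b1 : Fin (ar s') → ℕ, (∀ j, b1 j < m) ∧ ∃ b2 : Fin (ar s') → ℕ, (∀ j, b2 j < m) ∧
      ∃ p, p < m ∧ ∃ q, q < m ∧ ¬ ∃ x, x < m ∧ ¬ (x < l ↔
        XN m J (slice X 0 l s) (slice X 1 l s) a1 a2 p x ∧
        ¬ XN m J' (slice X 2 l s') (slice X 3 l s') b1 b2 q x))} := by
    ext n
    refine and_congr Iff.rfl ?_
    constructor
    · intro h
      have h4 : ∀ l : Fin (n / q₀ + 1), ∃ R : Fin 4 → Interp S ar (Fin n), (∀ i, IsMod χ (R i)) ∧
          ∃ (s : S) (J : Finset (Fin (ar s))) (s' : S) (J' : Finset (Fin (ar s')))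
          (a1 a2 : Fin (ar s) → Fin n) (b1 b2 : Fin (ar s') → Fin n) (p q : Fin n),
          ∀ x : Fin n, ((x : ℕ) < l ↔ XJ J (R 0 s) (R 1 s) a1 a2 p x ∧
            ¬ XJ J' (R 2 s') (R 3 s') b1 b2 q x) := by
        intro l
        obtain ⟨X, Y, ⟨s, J, R1, R2, a1, a2, p, hR1, hR2, hX⟩,
          ⟨s', J', R3, R4, b1, b2, q, hR3, hR4, hY⟩, hZ⟩ := h l
            ((hdiv n l).1 (Nat.le_of_lt_succ l.isLt))
        refine ⟨![R1, R2, R3, R4], ?_, s, J, s', J', a1, a2, b1, b2, p, q, ?_⟩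
        · intro i
          fin_cases i
          · exact hR1
          · exact hR2
          · exact hR3
          · exact hR4
        · intro x
          have h5 := hZ x
          rw [hX, hY] at h5
          have h6 : x ∈ iniS n l ↔ (x : ℕ) < l := by simp [iniS]
          rw [h6] at h5
          exact h5
      choose R hR s J s' J' a1 a2 b1 b2 p q hx using h4
      classical
      let X : SOA (ar4 ar) := fun c w =>
        ∃ (h1 : (show Fin (ar c.2 + 1) → ℕ from w) 0 < n / q₀ + 1)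
          (h2 : ∀ j : Fin (ar c.2), (show Fin (ar c.2 + 1) → ℕ from w) j.succ < n),
          R ⟨(show Fin (ar c.2 + 1) → ℕ from w) 0, h1⟩ c.1 c.2
            (fun j => ⟨(show Fin (ar c.2 + 1) → ℕ from w) j.succ, h2 j⟩)
      have hsl : ∀ (i : Fin 4) (l : Fin (n / q₀ + 1)) (t : S) (w : Fin (ar t) → Fin n),
          slice X i l t (fun j => (w j : ℕ)) ↔ R l i t w := by
        intro i l t w
        constructor
        · rintro ⟨h1, h2, h3⟩
          exact h3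
        · intro h3
          exact ⟨l.isLt, fun j => (w j).isLt, h3⟩
      have hto : ∀ (i : Fin 4) (l : Fin (n / q₀ + 1)), toI n (slice X i l) = R l i := by
        intro i l
        funext t w
        exact propext (hsl i l t w)
      refine ⟨X, fun l _ hl => ?_⟩
      obtain ⟨l', hl'⟩ : ∃ l' : Fin (n / q₀ + 1), (l' : ℕ) = l :=
        ⟨⟨l, Nat.lt_succ_of_le ((hdiv n l).2 hl)⟩, rfl⟩
      rw [← hl']
      refine ⟨fun i => ?_, s l', J l', s' l', J' l', fun j => (a1 l' j : ℕ), fun j => Fin.is_lt _,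
        fun j => (a2 l' j : ℕ), fun j => Fin.is_lt _, fun j => (b1 l' j : ℕ), fun j => Fin.is_lt _,
        fun j => (b2 l' j : ℕ), fun j => Fin.is_lt _, (p l' : ℕ), Fin.is_lt _, (q l' : ℕ),
        Fin.is_lt _, ?_⟩
      · rw [hF', hto]
        exact hR l' i
      · rintro ⟨x, hxn, hx'⟩
        apply hx'
        have h5 := hx l' ⟨x, hxn⟩
        have h6 := xN_iff (J l') (slice X 0 l' (s l')) (slice X 1 l' (s l')) (a1 l') (a2 l')
          (p l') ⟨x, hxn⟩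
        have h7 := xN_iff (J' l') (slice X 2 l' (s' l')) (slice X 3 l' (s' l')) (b1 l') (b2 l')
          (q l') ⟨x, hxn⟩
        have e0 : (fun t : Fin (ar (s l')) → Fin n => slice X 0 l' (s l') (fun i => (t i : ℕ))) =
            R l' 0 (s l') := by funext t; exact propext (hsl 0 l' _ t)
        have e1 : (fun t : Fin (ar (s l')) → Fin n => slice X 1 l' (s l') (fun i => (t i : ℕ))) =
            R l' 1 (s l') := by funext t; exact propext (hsl 1 l' _ t)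
        have e2 : (fun t : Fin (ar (s' l')) → Fin n => slice X 2 l' (s' l') (fun i => (t i : ℕ))) =
            R l' 2 (s' l') := by funext t; exact propext (hsl 2 l' _ t)
        have e3 : (fun t : Fin (ar (s' l')) → Fin n => slice X 3 l' (s' l') (fun i => (t i : ℕ))) =
            R l' 3 (s' l') := by funext t; exact propext (hsl 3 l' _ t)
        rw [e0, e1] at h6
        rw [e2, e3] at h7
        rw [h6, h7]
        exact h5
    · rintro ⟨X, hX⟩ l hl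
      have hl5 := hl
      obtain ⟨hM, s, J, s', J', a1, ha1, a2, ha2, b1, hb1, b2, hb2, p, hp, q, hq, hx⟩ :=
        hX l ((Nat.le_mul_of_pos_left l (by omega)).trans hl5) hl5
      have hM' : ∀ i, IsMod χ (toI n (slice X i l)) := fun i => (hF' n _).1 (hM i)
      classical
      refine ⟨Finset.univ.filter (fun x : Fin n => XJ J (toI n (slice X 0 l) s)
        (toI n (slice X 1 l) s) (fun j => ⟨a1 j, ha1 j⟩) (fun j => ⟨a2 j, ha2 j⟩) ⟨p, hp⟩ x),
        Finset.univ.filter (fun x : Fin n => XJ J' (toI n (slice X 2 l) s')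
        (toI n (slice X 3 l) s') (fun j => ⟨b1 j, hb1 j⟩) (fun j => ⟨b2 j, hb2 j⟩) ⟨q, hq⟩ x),
        ⟨s, J, _, _, fun j => ⟨a1 j, ha1 j⟩, fun j => ⟨a2 j, ha2 j⟩, ⟨p, hp⟩, hM' 0, hM' 1,
          fun x => by simp⟩,
        ⟨s', J', _, _, fun j => ⟨b1 j, hb1 j⟩, fun j => ⟨b2 j, hb2 j⟩, ⟨q, hq⟩, hM' 2, hM' 3,
          fun x => by simp⟩, fun x => ?_⟩
      have h5 : ((x : ℕ) < l ↔ XN n J (slice X 0 l s) (slice X 1 l s) a1 a2 p x ∧
          ¬ XN n J' (slice X 2 l s') (slice X 3 l s') b1 b2 q x) := by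
        by_contra h6
        exact hx ⟨x, x.isLt, h6⟩
      have h6 := xN_iff J (slice X 0 l s) (slice X 1 l s) (fun j => ⟨a1 j, ha1 j⟩)
        (fun j => ⟨a2 j, ha2 j⟩) ⟨p, hp⟩ x
      have h7 := xN_iff J' (slice X 2 l s') (slice X 3 l s') (fun j => ⟨b1 j, hb1 j⟩)
        (fun j => ⟨b2 j, hb2 j⟩) ⟨q, hq⟩ x
      rw [h6, h7] at h5
      have h8 : x ∈ iniS n l ↔ (x : ℕ) < l := by simp [iniS]
      rw [h8, h5]
      simp only [Finset.mem_filter, Finset.mem_univ, true_and]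
      exact Iff.rfl
  rw [h3]
  exact h2

end Pool.Agent.Helper40.QD
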